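import Pool.Agent.T9h20.TF.Spec

/-!
# Piece (E): no crossing of the sizes
-/

set_option autoImplicit false

open Set

namespace Pool.Agent.T9h67.TF

open Pool.Agent.T9h20.TA (mon mx)
open Pool.Agent.T9h20.TE (DD DD_conn mx_eq ne_of_mem)
open Pool.Agent.T9h81.TE (abs_mon)
open Pool.Agent.T9h20.TF

/-- The core: finitely many exponentials. -/
theorem env_core {k : ℕ} (β e : Fin k → ℝ) (hβ : ∀ i, 0 ≤ β i) (p r : ℝ) (hpr : p ≤ r)
    (hex : ∃ i, 0 < β i) :
    ∃ B : Finset ℝ, B.card ≤ k ^ 2 + 2 ∧ (∀ x ∈ B, p ≤ x ∧ x ≤ r) ∧ p ∈ B ∧ r ∈ B ∧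
      ∀ y, ∃ i0 : Fin k, ∀ x, x ∈ Ioo p r → y ∈ Ioo p r →
        (∀ x' ∈ B, |x - y| < |x' - y|) → ∀ i,
          β i * Real.exp (e i * x) ≤ β i0 * Real.exp (e i0 * x) := by
  classical
  set cross : Fin k × Fin k → ℝ := fun q =>
    (Real.log (β q.2) - Real.log (β q.1)) / (e q.1 - e q.2) with hcross
  set Z : Finset ℝ := ((Finset.univ : Finset (Fin k × Fin k)).image cross).filter
    (fun z => z ∈ Ioo p r) with hZ
  refine ⟨insert p (insert r Z), ?_, ?_, Finset.mem_insert_self _ _,
    Finset.mem_insert_of_mem (Finset.mem_insert_self _ _), ?_⟩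
  · have h1 : Z.card ≤ k ^ 2 := by
      refine (Finset.card_filter_le _ _).trans (Finset.card_image_le.trans ?_)
      rw [Finset.card_univ, Fintype.card_prod, Fintype.card_fin, sq]
    have h2 := Finset.card_insert_le p (insert r Z)
    have h3 := Finset.card_insert_le r Z
    omega
  · intro x hx
    rw [Finset.mem_insert, Finset.mem_insert] at hx
    rcases hx with rfl | rfl | hx
    · exact ⟨le_rfl, hpr⟩
    · exact ⟨hpr, le_rfl⟩
    · have := (Finset.mem_filter.mp hx).2
      exact ⟨this.1.le, this.2.le⟩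
  · intro y
    obtain ⟨i1, hi1⟩ := hex
    obtain ⟨i0, -, hi0⟩ := Finset.exists_max_image (Finset.univ : Finset (Fin k))
      (fun i => β i * Real.exp (e i * y)) ⟨i1, Finset.mem_univ _⟩
    refine ⟨i0, fun x hx hy hB i => ?_⟩
    have hpos0 : 0 < β i0 := by
      have h1 := hi0 i1 (Finset.mem_univ _)
      have h2 : 0 < β i1 * Real.exp (e i1 * y) := mul_pos hi1 (Real.exp_pos _)
      have h3 : 0 < β i0 * Real.exp (e i0 * y) := lt_of_lt_of_le h2 h1
      exact (pos_iff_pos_of_mul_pos h3).mpr (Real.exp_pos _)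
    rcases (hβ i).eq_or_lt with h0 | hpos
    · rw [← h0, zero_mul]
      exact (mul_pos hpos0 (Real.exp_pos _)).le
    · by_contra hcon
      push Not at hcon
      have hlog : ∀ (j : Fin k) (w : ℝ), 0 < β j →
          Real.log (β j * Real.exp (e j * w)) = Real.log (β j) + e j * w := by
        intro j w hj
        rw [Real.log_mul hj.ne' (Real.exp_pos _).ne', Real.log_exp]
      have hx1 : Real.log (β i0) + e i0 * x < Real.log (β i) + e i * x := by
        rw [← hlog i0 x hpos0, ← hlog i x hpos]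
        exact Real.log_lt_log (mul_pos hpos0 (Real.exp_pos _)) hcon
      have hy1 : Real.log (β i) + e i * y ≤ Real.log (β i0) + e i0 * y := by
        rw [← hlog i0 y hpos0, ← hlog i y hpos]
        exact Real.log_le_log (mul_pos hpos (Real.exp_pos _)) (hi0 i (Finset.mem_univ _))
      set D := e i - e i0 with hD
      set Δ := Real.log (β i0) - Real.log (β i) with hΔ
      have hxD : Δ < D * x := by rw [hD, hΔ]; linarith
      have hyD : D * y ≤ Δ := by rw [hD, hΔ]; linarith
      have hz : cross (i, i0) = Δ / D := rfl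
      have hmem : Δ / D ∈ Ioo p r → |x - y| < |Δ / D - y| := by
        intro h
        apply hB
        rw [Finset.mem_insert, Finset.mem_insert]
        right; right
        rw [hZ, Finset.mem_filter]
        exact ⟨Finset.mem_image.mpr ⟨(i, i0), Finset.mem_univ _, hz⟩, h⟩
      rcases lt_trichotomy D 0 with hneg | hzero | hposD
      · have h1 : x < Δ / D := by rw [lt_div_iff_of_neg hneg]; linarith
        have h2 : Δ / D ≤ y := by rw [div_le_iff_of_neg hneg]; linarith
        have h3 := hmem ⟨hx.1.trans h1, lt_of_le_of_lt h2 hy.2⟩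
        rw [abs_of_neg (by linarith : x - y < 0), abs_of_nonpos (by linarith : Δ / D - y ≤ 0)] at h3
        linarith
      · rw [hzero, zero_mul] at hxD hyD
        linarith
      · have h1 : Δ / D < x := by rw [div_lt_iff₀ hposD]; linarith
        have h2 : y ≤ Δ / D := by rw [le_div_iff₀ hposD]; linarith
        have h3 := hmem ⟨lt_of_lt_of_le hy.1 h2, h1.trans hx.2⟩
        rw [abs_of_pos (by linarith : 0 < x - y), abs_of_nonneg (by linarith : 0 ≤ Δ / D - y)] at h3
        linarith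

theorem sEnv : SEnv := by
  intro k q t _ b d al c a s0 p r hpr hc hb hDD
  classical
  set β : Fin k → ℝ := fun i => |b i| * ∏ j, |c j (s0 j)| ^ al i j with hβ
  set e : Fin k → ℝ := fun i => d i + ∑ j, (al i j : ℝ) * a j (s0 j) with he
  have hβ0 : ∀ i, 0 ≤ β i := fun i =>
    mul_nonneg (abs_nonneg _) (Finset.prod_nonneg fun j _ => pow_nonneg (abs_nonneg _) _)
  have hcne : ∀ j, c j (s0 j) ≠ 0 := fun j => ne_of_mem (hc j) (hDD j).1
  have hex : ∃ i, 0 < β i := by
    obtain ⟨i, hi⟩ := hb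
    exact ⟨i, mul_pos (abs_pos.mpr hi)
      (Finset.prod_pos fun j _ => pow_pos (abs_pos.mpr (hcne j)) _)⟩
  have hMM : ∀ i, ∀ x ∈ Icc p r, MM b d al c a i x = β i * Real.exp (e i * x) := by
    intro i x hx
    have h1 : ∀ j, mx (c j) (a j) x = |c j (s0 j)| * Real.exp (a j (s0 j) * x) := by
      intro j
      rw [mx_eq (DD_conn (hc j) (hDD j).1 (hDD j).2 hx.1 hx.2), abs_mon]
    unfold MM
    rw [Finset.prod_congr rfl fun j _ => by rw [h1 j, mul_pow, ← Real.exp_nat_mul],
      Finset.prod_mul_distrib, ← Real.exp_sum]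
    have h2 : e i * x = d i * x + ∑ j, (al i j : ℝ) * (a j (s0 j) * x) := by
      rw [he]
      simp only
      rw [add_mul, Finset.sum_mul]
      congr 1
      exact Finset.sum_congr rfl fun j _ => by ring
    rw [h2, Real.exp_add, hβ]
    simp only
    ring
  obtain ⟨B, hB1, hB2, hpB, hrB, hB3⟩ := env_core β e hβ0 p r hpr.le hex
  refine ⟨B, hB1, hB2, fun y hy => ?_⟩
  obtain ⟨i0, hi0⟩ := hB3 y
  refine ⟨i0, e i0, fun x hx i => ?_⟩
  have h1 := hx p hpB
  have h2 := hx r hrB
  rw [abs_of_nonpos (by linarith [hy.1] : p - y ≤ 0)] at h1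
  rw [abs_of_nonneg (by linarith [hy.2] : 0 ≤ r - y)] at h2
  have h3 := abs_lt.mp h1
  have h4 := abs_lt.mp h2
  have h5 := abs_nonneg (x - y)
  have hxI : x ∈ Ioo p r := ⟨by linarith [h3.1], by linarith [h4.2]⟩
  have hyI : y ∈ Ioo p r := ⟨by linarith, by linarith⟩
  rw [hMM i x ⟨hxI.1.le, hxI.2.le⟩, hMM i0 y hy]
  refine (hi0 x hxI hyI hx i).trans (le_of_eq ?_)
  have h6 : Real.exp (e i0 * x) = Real.exp (e i0 * y) * Real.exp (e i0 * (x - y)) := by
    rw [← Real.exp_add]
    congr 1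
    ring
  rw [h6]
  exact (mul_assoc _ _ _).symm

end Pool.Agent.T9h67.TF
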